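import Mathlib

/-! Area mean value property of holomorphic functions (project KSZ, input A12). -/

set_option autoImplicit false
open MeasureTheory Metric Set Complex
open scoped Real

namespace Pool.Agent.Helper6.KSZ

theorem circle_int (G : ℂ → ℂ) (hG : Differentiable ℂ G) (z : ℂ) (ρ : ℝ) :
    ∫ θ in Ioo (-π) π, G (z + ρ * exp (θ * I)) = (2 * π) • G z := by
  have h1 : Real.circleAverage G z ρ = G z := by
    apply DiffContOnCl.circleAverage
    exact hG.diffContOnCl
  have h2 := Real.circleAverage_eq_integral_add (f := G) (c := z) (R := ρ) (-π)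
  rw [h1] at h2
  have h3 : ∫ θ in Ioo (-π) π, G (z + ρ * exp (θ * I)) = ∫ θ in (-π)..π, G (circleMap z ρ θ) := by
    rw [intervalIntegral.integral_of_le (by linarith [Real.pi_pos]), integral_Ioc_eq_integral_Ioo]
    rfl
  have h4 : ∫ θ in (-π)..π, G (circleMap z ρ θ) = ∫ θ in (0 : ℝ)..2 * π, G (circleMap z ρ (θ + -π)) := by
    have := intervalIntegral.integral_comp_add_right (a := 0) (b := 2 * π)
      (fun θ => G (circleMap z ρ θ)) (-π)
    rw [this]
    congr 1 <;> ring
  rw [h3, h4]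
  have hpi : (2 * π) ≠ 0 := by positivity
  rw [h2, smul_smul, mul_inv_cancel₀ hpi, one_smul]

theorem area_mean (G : ℂ → ℂ) (hG : Differentiable ℂ G) (z : ℂ) (r : ℝ) (hr : 0 ≤ r) :
    ∫ w in closedBall z r, G w = (π * r ^ 2) • G z := by
  have hpi := Real.pi_pos
  have e1 : ∫ w in closedBall z r, G w = ∫ w in closedBall (0 : ℂ) r, G (z + w) := by
    have := (measurePreserving_add_left (volume : Measure ℂ) z).setIntegral_preimage_emb
      (measurableEmbedding_addLeft z) G (closedBall z r)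
    rw [← this]
    congr 2
    ext w
    simp [mem_closedBall, dist_eq_norm]
  have e2 : ∫ w in closedBall (0 : ℂ) r, G (z + w) =
      ∫ w, (closedBall (0 : ℂ) r).indicator (fun w => G (z + w)) w := by
    rw [integral_indicator measurableSet_closedBall]
  have e3 := Complex.integral_comp_polarCoord_symm
    ((closedBall (0 : ℂ) r).indicator (fun w => G (z + w)))
  have e4 : ∫ p in polarCoord.target,
      p.1 • ((closedBall (0 : ℂ) r).indicator (fun w => G (z + w)) (Complex.polarCoord.symm p)) =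
      ∫ p in (Ioc 0 r ×ˢ Ioo (-π) π), (fun p : ℝ × ℝ => p.1 • G (z + p.1 * exp (p.2 * I))) p := by
    have hT : polarCoord.target = Ioi (0 : ℝ) ×ˢ Ioo (-π) π := polarCoord_target
    rw [hT]
    have hsub : Ioc (0:ℝ) r ×ˢ Ioo (-π) π ⊆ Ioi (0 : ℝ) ×ˢ Ioo (-π) π :=
      prod_mono (fun x hx => hx.1) subset_rfl
    have hm : MeasurableSet (Ioc (0:ℝ) r ×ˢ Ioo (-π) π) := measurableSet_Ioc.prod measurableSet_Ioo
    have k1 : ∫ p in Ioi (0 : ℝ) ×ˢ Ioo (-π) π,
        p.1 • ((closedBall (0 : ℂ) r).indicator (fun w => G (z + w)) (Complex.polarCoord.symm p)) =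
        ∫ p in Ioc (0:ℝ) r ×ˢ Ioo (-π) π,
        p.1 • ((closedBall (0 : ℂ) r).indicator (fun w => G (z + w)) (Complex.polarCoord.symm p)) := by
      refine setIntegral_eq_of_subset_of_forall_sdiff_eq_zero
        (measurableSet_Ioi.prod measurableSet_Ioo) hsub ?_
      rintro ⟨a, b⟩ ⟨⟨ha, hb⟩, hn⟩
      rw [indicator_of_notMem, smul_zero]
      rw [mem_closedBall_zero_iff, norm_polarCoord_symm]
      intro h
      apply hn
      have ha' : (0 : ℝ) < a := ha
      simp only [abs_of_pos ha'] at h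
      exact ⟨⟨ha, h⟩, hb⟩
    rw [k1]
    refine setIntegral_congr_fun hm ?_
    rintro ⟨a, b⟩ ⟨ha, hb⟩
    have hmem : Complex.polarCoord.symm (a, b) ∈ closedBall (0 : ℂ) r := by
      rw [mem_closedBall_zero_iff, norm_polarCoord_symm]
      have ha' : (0 : ℝ) < a ∧ a ≤ r := ha
      simp only [abs_of_pos ha'.1]
      exact ha'.2
    simp only
    rw [indicator_of_mem hmem, Complex.polarCoord_symm_apply]
    simp only [Complex.ofReal_cos, Complex.ofReal_sin, Complex.exp_mul_I]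
  have hcont : Continuous (fun p : ℝ × ℝ => p.1 • G (z + p.1 * exp (p.2 * I))) := by
    have := hG.continuous
    fun_prop
  have e5 : ∫ p in (Ioc 0 r ×ˢ Ioo (-π) π), (fun p : ℝ × ℝ => p.1 • G (z + p.1 * exp (p.2 * I))) p =
      ∫ ρ in Ioc 0 r, ∫ θ in Ioo (-π) π, ρ • G (z + ρ * exp (θ * I)) := by
    rw [Measure.volume_eq_prod, setIntegral_prod]
    rw [← Measure.volume_eq_prod]
    have hc : IntegrableOn (fun p : ℝ × ℝ => p.1 • G (z + p.1 * exp (p.2 * I)))
        (Icc 0 r ×ˢ Icc (-π) π) := hcont.continuousOn.integrableOn_compact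
          (isCompact_Icc.prod isCompact_Icc)
    exact hc.mono_set (prod_mono Ioc_subset_Icc_self Ioo_subset_Icc_self)
  have e6 : ∫ ρ in Ioc 0 r, ∫ θ in Ioo (-π) π, ρ • G (z + ρ * exp (θ * I)) =
      ∫ ρ in Ioc 0 r, ρ • ((2 * π) • G z) := by
    refine setIntegral_congr_fun measurableSet_Ioc ?_
    intro ρ _
    simp only
    rw [integral_smul, circle_int G hG z ρ]
  rw [e1, e2, ← e3, e4, e5, e6, integral_smul_const, ← intervalIntegral.integral_of_le hr,
    integral_id, smul_smul]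
  congr 1
  ring

/-- (A12) subharmonicity of the modulus, area form -/
theorem norm_le_area (G : ℂ → ℂ) (hG : Differentiable ℂ G) (z : ℂ) (r : ℝ) (hr : 0 < r) :
    ‖G z‖ ≤ 1 / (π * r ^ 2) * ∫ w in closedBall z r, ‖G w‖ := by
  have hpi := Real.pi_pos
  have h := area_mean G hG z r hr.le
  have h2 : (π * r ^ 2) * ‖G z‖ ≤ ∫ w in closedBall z r, ‖G w‖ := by
    calc (π * r ^ 2) * ‖G z‖ = ‖(π * r ^ 2) • G z‖ := by
          rw [norm_smul, Real.norm_eq_abs, abs_of_pos (by positivity)]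
      _ = ‖∫ w in closedBall z r, G w‖ := by rw [h]
      _ ≤ _ := norm_integral_le_integral_norm _
  rw [one_div, inv_mul_eq_div, le_div_iff₀ (by positivity)]
  linarith

/-- the same for powers -/
theorem pow_le_area (F : ℂ → ℂ) (hF : Differentiable ℂ F) (m : ℕ) (z : ℂ) (r : ℝ) (hr : 0 < r) :
    ‖F z‖ ^ m ≤ 1 / (π * r ^ 2) * ∫ w in closedBall z r, ‖F w‖ ^ m := by
  have := norm_le_area (fun w => F w ^ m) (hF.pow m) z r hr
  simpa only [norm_pow] using this

/-- sum over separated points -/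
theorem sum_le_area {ι : Type*} (s : Finset ι) (pt : ι → ℂ) (F : ℂ → ℂ) (hF : Differentiable ℂ F)
    (m : ℕ) (r : ℝ) (hr : 0 < r) (hsep : ∀ i ∈ s, ∀ j ∈ s, i ≠ j → 2 * r < dist (pt i) (pt j))
    (Ω : Set ℂ) (hsub : ∀ i ∈ s, closedBall (pt i) r ⊆ Ω)
    (hint : IntegrableOn (fun w => ‖F w‖ ^ m) Ω) :
    ∑ i ∈ s, ‖F (pt i)‖ ^ m ≤ 1 / (π * r ^ 2) * ∫ w in Ω, ‖F w‖ ^ m := by
  have hpi := Real.pi_pos
  have h1 : ∑ i ∈ s, ‖F (pt i)‖ ^ m ≤
      ∑ i ∈ s, 1 / (π * r ^ 2) * ∫ w in closedBall (pt i) r, ‖F w‖ ^ m :=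
    Finset.sum_le_sum (fun i _ => pow_le_area F hF m (pt i) r hr)
  refine h1.trans ?_
  rw [← Finset.mul_sum]
  apply mul_le_mul_of_nonneg_left _ (by positivity)
  have hd : (↑s : Set ι).PairwiseDisjoint (fun i => closedBall (pt i) r) := by
    intro i hi j hj hij
    apply closedBall_disjoint_closedBall
    have := hsep i hi j hj hij
    linarith
  have h2 : ∑ i ∈ s, ∫ w in closedBall (pt i) r, ‖F w‖ ^ m =
      ∫ w in ⋃ i ∈ s, closedBall (pt i) r, ‖F w‖ ^ m := by
    rw [integral_biUnion_finset s (fun i _ => measurableSet_closedBall) hd]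
    intro i hi
    exact hint.mono_set (hsub i hi)
  rw [h2]
  apply setIntegral_mono_set hint
  · exact Filter.Eventually.of_forall (fun w => by positivity)
  · apply LE.le.eventuallyLE
    exact iUnion₂_subset hsub

end Pool.Agent.Helper6.KSZ
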