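import Pool.Agent.Helper10.KSZ.St
import Pool.Agent.Helper6.KSZ.AreaMean

/-! Mean values (project KSZ, inputs A11, A11', A12, A12', A13). -/

set_option autoImplicit false
open MeasureTheory Finset
open scoped Real

namespace Pool.Agent.Helper6.KSZ

open Pool.Agent.Helper10.KSZ

/-! ### bins -/

section bins

variable {ι : Type} (S : Finset ι) (a : ι → ℝ) (b : ι → ℤ)

noncomputable def binSum (γ : ℤ) : ℝ := ∑ k ∈ S.filter (fun k => b k = γ), a k

theorem binSum_nonneg (ha : ∀ j ∈ S, 0 ≤ a j) (γ : ℤ) : 0 ≤ binSum S a b γ :=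
  Finset.sum_nonneg (fun j hj => ha j (Finset.mem_filter.1 hj).1)

theorem binSum_zero {γ : ℤ} (h : γ ∉ S.image b) : binSum S a b γ = 0 := by
  unfold binSum
  rw [Finset.sum_eq_zero]
  intro k hk
  exfalso
  exact h (Finset.mem_image.2 ⟨k, (Finset.mem_filter.1 hk).1, (Finset.mem_filter.1 hk).2⟩)

theorem pair_shift (d : ℤ) :
    ∑ j ∈ S, ∑ k ∈ S, (if b k = b j + d then a j * a k else 0) =
      ∑ β ∈ S.image b, binSum S a b β * binSum S a b (β + d) := by
  have h1 : ∀ j ∈ S, ∑ k ∈ S, (if b k = b j + d then a j * a k else 0) =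
      a j * binSum S a b (b j + d) := by
    intro j _
    unfold binSum
    rw [Finset.mul_sum, Finset.sum_filter]
  rw [Finset.sum_congr rfl h1]
  rw [← Finset.sum_fiberwise_of_maps_to (t := S.image b) (g := b)
    (fun j hj => Finset.mem_image_of_mem _ hj)]
  refine Finset.sum_congr rfl (fun β _ => ?_)
  unfold binSum
  rw [Finset.sum_mul]
  refine Finset.sum_congr rfl (fun j hj => ?_)
  rw [(Finset.mem_filter.1 hj).2]

theorem shift_le (d : ℤ) :
    ∑ β ∈ S.image b, binSum S a b (β + d) ^ 2 ≤ ∑ β ∈ S.image b, binSum S a b β ^ 2 := by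
  have h1 : ∑ β ∈ S.image b, binSum S a b (β + d) ^ 2 =
      ∑ γ ∈ (S.image b).image (fun β => β + d), binSum S a b γ ^ 2 := by
    rw [Finset.sum_image (s := S.image b) (g := fun β => β + d)
      (fun x _ y _ h => by simpa using h)]
  rw [h1]
  have h2 : ∑ γ ∈ (S.image b).image (fun β => β + d), binSum S a b γ ^ 2 =
      ∑ γ ∈ ((S.image b).image (fun β => β + d)).filter (fun γ => γ ∈ S.image b),
        binSum S a b γ ^ 2 := by
    rw [Finset.sum_filter]
    refine Finset.sum_congr rfl (fun γ _ => ?_)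
    by_cases h : γ ∈ S.image b
    · rw [if_pos h]
    · rw [if_neg h, binSum_zero S a b h]; norm_num
  rw [h2]
  refine Finset.sum_le_sum_of_subset_of_nonneg ?_ (fun γ _ _ => sq_nonneg _)
  intro γ hγ
  exact (Finset.mem_filter.1 hγ).2

theorem pair_shift_le (d : ℤ) :
    ∑ j ∈ S, ∑ k ∈ S, (if b k = b j + d then a j * a k else 0) ≤
      ∑ β ∈ S.image b, binSum S a b β ^ 2 := by
  rw [pair_shift]
  have h1 : ∑ β ∈ S.image b, binSum S a b β * binSum S a b (β + d) ≤
      ∑ β ∈ S.image b, (binSum S a b β ^ 2 / 2 + binSum S a b (β + d) ^ 2 / 2) := by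
    refine Finset.sum_le_sum (fun β _ => ?_)
    nlinarith [sq_nonneg (binSum S a b β - binSum S a b (β + d))]
  refine h1.trans ?_
  rw [Finset.sum_add_distrib, ← Finset.sum_div, ← Finset.sum_div]
  have := shift_le S a b d
  linarith

theorem pair_le (ha : ∀ j ∈ S, 0 ≤ a j) (m : ℕ) :
    ∑ j ∈ S, ∑ k ∈ S, (if |b j - b k| ≤ m then a j * a k else 0) ≤
      (2 * m + 1) * ∑ β ∈ S.image b, binSum S a b β ^ 2 := by
  have h1 : ∀ j ∈ S, ∀ k ∈ S, (if |b j - b k| ≤ m then a j * a k else 0) ≤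
      ∑ d ∈ Finset.Icc (-(m : ℤ)) m, (if b k = b j + d then a j * a k else 0) := by
    intro j hj k hk
    have hnn : 0 ≤ a j * a k := mul_nonneg (ha j hj) (ha k hk)
    by_cases h : |b j - b k| ≤ m
    · rw [if_pos h]
      have hmem : b k - b j ∈ Finset.Icc (-(m : ℤ)) m := by
        rw [abs_le] at h
        rw [Finset.mem_Icc]
        omega
      refine le_trans (le_of_eq ?_) (Finset.single_le_sum (f := fun d =>
        (if b k = b j + d then a j * a k else 0)) (fun d _ => ?_) hmem)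
      · rw [if_pos (by ring)]
      · split_ifs
        · exact hnn
        · exact le_rfl
    · rw [if_neg h]
      refine Finset.sum_nonneg (fun d _ => ?_)
      split_ifs
      · exact hnn
      · exact le_rfl
  calc ∑ j ∈ S, ∑ k ∈ S, (if |b j - b k| ≤ m then a j * a k else 0) ≤
        ∑ j ∈ S, ∑ k ∈ S, ∑ d ∈ Finset.Icc (-(m : ℤ)) m, (if b k = b j + d then a j * a k else 0) :=
        Finset.sum_le_sum (fun j hj => Finset.sum_le_sum (fun k hk => h1 j hj k hk))
    _ = ∑ d ∈ Finset.Icc (-(m : ℤ)) m, ∑ j ∈ S, ∑ k ∈ S,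
        (if b k = b j + d then a j * a k else 0) := by
        rw [Finset.sum_comm]
        rw [Finset.sum_congr rfl (fun k _ => Finset.sum_comm)]
        rw [Finset.sum_comm]
        refine Finset.sum_congr rfl (fun d _ => ?_)
        rw [Finset.sum_comm]
    _ ≤ ∑ d ∈ Finset.Icc (-(m : ℤ)) m, ∑ β ∈ S.image b, binSum S a b β ^ 2 :=
        Finset.sum_le_sum (fun d _ => pair_shift_le S a b d)
    _ = _ := by
        rw [Finset.sum_const, Int.card_Icc, nsmul_eq_mul]
        congr 1
        have : ((m : ℤ) + 1 - -(m : ℤ)).toNat = 2 * m + 1 := by omega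
        rw [this]
        push_cast
        ring

theorem diag_eq :
    ∑ β ∈ S.image b, binSum S a b β ^ 2 =
      ∑ j ∈ S, ∑ k ∈ S, (if b k = b j then a j * a k else 0) := by
  have := pair_shift S a b 0
  simp only [add_zero] at this
  rw [this]
  refine Finset.sum_congr rfl (fun β _ => ?_)
  ring

end bins

/-- (A11') with the better constant `2m+1` -/
theorem a11'_strong (ι : Type) (S : Finset ι) (a : ι → ℝ) (y : ι → ℝ) (T : ℝ) (m : ℕ)
    (hT : 0 < T) (ha : ∀ j ∈ S, 0 ≤ a j) :
    (∑ j ∈ S, ∑ k ∈ S, if |y j - y k| ≤ m / T then a j * a k else 0) ≤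
      (2 * m + 1) * ∑ j ∈ S, ∑ k ∈ S, if |y j - y k| ≤ 1 / T then a j * a k else 0 := by
  set b : ι → ℤ := fun j => ⌊T * y j⌋ with hb
  have h1 : (∑ j ∈ S, ∑ k ∈ S, if |y j - y k| ≤ m / T then a j * a k else 0) ≤
      ∑ j ∈ S, ∑ k ∈ S, (if |b j - b k| ≤ m then a j * a k else 0) := by
    refine Finset.sum_le_sum (fun j hj => Finset.sum_le_sum (fun k hk => ?_))
    have hnn : 0 ≤ a j * a k := mul_nonneg (ha j hj) (ha k hk)
    by_cases h : |y j - y k| ≤ m / T
    · rw [if_pos h, if_pos]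
      rw [abs_le, neg_le_iff_add_nonneg] at h ⊢
      have e1 : T * y j ≤ T * y k + m := by
        have : y j - y k ≤ m / T := h.2
        rw [le_div_iff₀ hT] at this
        linarith
      have e2 : T * y k ≤ T * y j + m := by
        have : y k - y j ≤ m / T := by linarith [h.1]
        rw [le_div_iff₀ hT] at this
        linarith
      have f1 := Int.floor_le_floor e1
      have f2 := Int.floor_le_floor e2
      rw [Int.floor_add_natCast] at f1 f2
      simp only [hb]
      constructor <;> omega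
    · rw [if_neg h]
      split_ifs
      · exact hnn
      · exact le_rfl
  have h2 := pair_le S a b ha m
  have h3 : ∑ β ∈ S.image b, binSum S a b β ^ 2 ≤
      ∑ j ∈ S, ∑ k ∈ S, if |y j - y k| ≤ 1 / T then a j * a k else 0 := by
    rw [diag_eq]
    refine Finset.sum_le_sum (fun j hj => Finset.sum_le_sum (fun k hk => ?_))
    have hnn : 0 ≤ a j * a k := mul_nonneg (ha j hj) (ha k hk)
    by_cases h : b k = b j
    · rw [if_pos h, if_pos]
      have e1 := Int.abs_sub_lt_one_of_floor_eq_floor (R := ℝ) h.symm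
      rw [← mul_sub, abs_mul, abs_of_pos hT] at e1
      rw [le_div_iff₀ hT]
      linarith
    · rw [if_neg h]
      split_ifs
      · exact hnn
      · exact le_rfl
  refine h1.trans (h2.trans ?_)
  exact mul_le_mul_of_nonneg_left h3 (by positivity)

theorem a11' : A11' := by
  intro ι S a y T m hT ha
  refine (a11'_strong ι S a y T m hT ha).trans ?_
  apply mul_le_mul_of_nonneg_right (by linarith)
  refine Finset.sum_nonneg (fun j hj => Finset.sum_nonneg (fun k hk => ?_))
  split_ifs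
  · exact mul_nonneg (ha j hj) (ha k hk)
  · exact le_rfl

theorem a12 : A12 := fun F hF z r hr => pow_le_area F hF 2 z r hr

/-! ### Gaussian mean value -/

/-- the kernel as complex function -/
noncomputable def gk (T u t : ℝ) : ℂ :=
  ((Real.exp (-(t / T) ^ 2) : ℝ) : ℂ) * Complex.exp (Complex.I * (u * t : ℝ))

theorem gk_eq (T u t : ℝ) (hT : 0 < T) :
    gk T u t = Complex.exp (Complex.I * (u : ℂ) * t) * Complex.exp (-((1 / T ^ 2 : ℝ) : ℂ) * (t : ℂ) ^ 2) := by
  unfold gk
  rw [mul_comm, Complex.ofReal_exp]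
  congr 1
  · congr 1; push_cast; ring
  · congr 1
    push_cast
    have : (T : ℂ) ≠ 0 := by exact_mod_cast hT.ne'
    field_simp

theorem gk_integral (T u : ℝ) (hT : 0 < T) :
    ‖∫ t : ℝ, gk T u t‖ = Real.sqrt π * T * Real.exp (-(T * u) ^ 2 / 4) := by
  have hpi := Real.pi_pos
  have hb : 0 < (((1 / T ^ 2 : ℝ) : ℂ)).re := by
    rw [Complex.ofReal_re]; positivity
  have h := fourierIntegral_gaussian hb (u : ℂ)
  simp only [gk_eq T u _ hT]
  rw [h, norm_mul]
  congr 1
  · have e : ((π : ℂ) / ((1 / T ^ 2 : ℝ) : ℂ)) = ((π * T ^ 2 : ℝ) : ℂ) := by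
      push_cast
      have : (T : ℂ) ≠ 0 := by exact_mod_cast hT.ne'
      field_simp
    rw [e, show (1 / 2 : ℂ) = (((1 / 2 : ℝ)) : ℂ) by push_cast; ring, ← Complex.ofReal_cpow (by positivity),
      Complex.norm_real, Real.norm_eq_abs, abs_of_nonneg (by positivity), ← Real.sqrt_eq_rpow,
      Real.sqrt_mul hpi.le, Real.sqrt_sq hT.le]
  · have e : (-(u : ℂ) ^ 2 / (4 * ((1 / T ^ 2 : ℝ) : ℂ))) = ((-(T * u) ^ 2 / 4 : ℝ) : ℂ) := by
      push_cast
      have : (T : ℂ) ≠ 0 := by exact_mod_cast hT.ne'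
      field_simp
    rw [e, ← Complex.ofReal_exp, Complex.norm_real, Real.norm_eq_abs, abs_of_nonneg (by positivity)]

theorem gk_integrable (T u : ℝ) (hT : 0 < T) : Integrable (gk T u) := by
  by_contra H
  have h := gk_integral T u hT
  rw [integral_undef H, norm_zero] at h
  have : 0 < Real.sqrt π * T * Real.exp (-(T * u) ^ 2 / 4) := by positivity
  linarith

section mv

variable {ι : Type} (S : Finset ι) (a : ι → ℂ) (y : ι → ℝ) (T : ℝ)

theorem mv_expand (t : ℝ) :
    ((Real.exp (-(t / T) ^ 2) *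
      ‖∑ j ∈ S, a j * Complex.exp (Complex.I * (y j * t : ℝ))‖ ^ 2 : ℝ) : ℂ) =
    ∑ j ∈ S, ∑ k ∈ S, (a j * (starRingEnd ℂ) (a k)) * gk T (y j - y k) t := by
  push_cast
  rw [← Complex.mul_conj', map_sum, Finset.sum_mul_sum, Finset.mul_sum]
  refine Finset.sum_congr rfl (fun j _ => ?_)
  rw [Finset.mul_sum]
  refine Finset.sum_congr rfl (fun k _ => ?_)
  unfold gk
  have e : Complex.exp (Complex.I * ((y j - y k) * t : ℝ)) =
      Complex.exp (Complex.I * (y j * t : ℝ)) *
        (starRingEnd ℂ) (Complex.exp (Complex.I * (y k * t : ℝ))) := by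
    rw [← Complex.exp_conj, ← Complex.exp_add]
    congr 1
    simp only [map_mul, Complex.conj_I, Complex.conj_ofReal]
    push_cast
    ring
  rw [e, map_mul, Complex.ofReal_exp]
  push_cast
  ring

theorem mv_integrable (hT : 0 < T) :
    Integrable (fun t : ℝ => Real.exp (-(t / T) ^ 2) *
      ‖∑ j ∈ S, a j * Complex.exp (Complex.I * (y j * t : ℝ))‖ ^ 2) := by
  have h : Integrable (fun t : ℝ => ∑ j ∈ S, ∑ k ∈ S,
      (a j * (starRingEnd ℂ) (a k)) * gk T (y j - y k) t) :=
    integrable_finsetSum _ (fun j _ => integrable_finsetSum _ (fun k _ =>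
      (gk_integrable T _ hT).const_mul _))
  have h2 : Integrable (fun t : ℝ => ((Real.exp (-(t / T) ^ 2) *
      ‖∑ j ∈ S, a j * Complex.exp (Complex.I * (y j * t : ℝ))‖ ^ 2 : ℝ) : ℂ)) := by
    simp only [mv_expand]
    exact h
  have h3 := h2.re
  simpa only [RCLike.re_eq_complex_re, Complex.ofReal_re] using h3

theorem mv_le (hT : 0 < T) :
    ∫ t : ℝ, Real.exp (-(t / T) ^ 2) *
      ‖∑ j ∈ S, a j * Complex.exp (Complex.I * (y j * t : ℝ))‖ ^ 2 ≤
    Real.sqrt π * T * ∑ j ∈ S, ∑ k ∈ S, (‖a j‖ * ‖a k‖) *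
      Real.exp (-(T * (y j - y k)) ^ 2 / 4) := by
  set f : ℝ → ℝ := fun t => Real.exp (-(t / T) ^ 2) *
      ‖∑ j ∈ S, a j * Complex.exp (Complex.I * (y j * t : ℝ))‖ ^ 2 with hf
  have h1 : ((∫ t : ℝ, f t : ℝ) : ℂ) = ∑ j ∈ S, ∑ k ∈ S,
      (a j * (starRingEnd ℂ) (a k)) * ∫ t : ℝ, gk T (y j - y k) t := by
    rw [← integral_complex_ofReal]
    simp only [hf, mv_expand]
    rw [integral_finsetSum]
    · refine Finset.sum_congr rfl (fun j _ => ?_)
      rw [integral_finsetSum]
      · refine Finset.sum_congr rfl (fun k _ => ?_)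
        rw [integral_const_mul]
      · intro k _
        exact (gk_integrable T _ hT).const_mul _
    · intro j _
      exact integrable_finsetSum _ (fun k _ => (gk_integrable T _ hT).const_mul _)
  have h2 : ∫ t : ℝ, f t ≤ ‖((∫ t : ℝ, f t : ℝ) : ℂ)‖ := by
    rw [Complex.norm_real]
    exact le_abs_self _
  refine h2.trans ?_
  rw [h1]
  refine (norm_sum_le _ _).trans ?_
  rw [Finset.mul_sum]
  refine Finset.sum_le_sum (fun j _ => (norm_sum_le _ _).trans ?_)
  rw [Finset.mul_sum]
  refine Finset.sum_le_sum (fun k _ => le_of_eq ?_)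
  rw [norm_mul, norm_mul, RCLike.norm_conj, gk_integral T _ hT]
  ring

end mv

/-! ### from Gaussian weights to pairs at distance `1/T` -/

theorem gw_summable : Summable (fun m : ℕ => Real.exp (-(m : ℝ) ^ 2 / 4) * (2 * (m : ℝ) + 3)) := by
  have h1 : Summable (fun m : ℕ => Real.exp 1 * (2 * ((m : ℝ) ^ 1 * Real.exp (-1) ^ m) +
      3 * ((m : ℝ) ^ 0 * Real.exp (-1) ^ m))) := by
    have hr : ‖Real.exp (-1)‖ < 1 := by
      rw [Real.norm_eq_abs, abs_of_pos (Real.exp_pos _)]
      have := Real.exp_lt_exp.2 (show (-1 : ℝ) < 0 by norm_num)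
      rwa [Real.exp_zero] at this
    exact (((summable_pow_mul_geometric_of_norm_lt_one 1 hr).mul_left 2).add
      ((summable_pow_mul_geometric_of_norm_lt_one 0 hr).mul_left 3)).mul_left _
  refine Summable.of_nonneg_of_le (fun m => by positivity) (fun m => ?_) h1
  have e1 : Real.exp (-(m : ℝ) ^ 2 / 4) ≤ Real.exp 1 * Real.exp (-1) ^ m := by
    rw [← Real.exp_nat_mul, ← Real.exp_add]
    apply Real.exp_le_exp.2
    nlinarith [sq_nonneg ((m : ℝ) / 2 - 1)]
  have e2 : (0 : ℝ) ≤ 2 * m + 3 := by positivity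
  calc Real.exp (-(m : ℝ) ^ 2 / 4) * (2 * (m : ℝ) + 3) ≤
        (Real.exp 1 * Real.exp (-1) ^ m) * (2 * (m : ℝ) + 3) := mul_le_mul_of_nonneg_right e1 e2
    _ = _ := by ring

theorem gw_pairs {ι : Type} (S : Finset ι) (c : ι → ℝ) (y : ι → ℝ) (T : ℝ) (hT : 0 < T)
    (hc : ∀ j ∈ S, 0 ≤ c j) :
    ∑ j ∈ S, ∑ k ∈ S, (c j * c k) * Real.exp (-(T * (y j - y k)) ^ 2 / 4) ≤
      (∑' m : ℕ, Real.exp (-(m : ℝ) ^ 2 / 4) * (2 * (m : ℝ) + 3)) *
        ∑ j ∈ S, ∑ k ∈ S, if |y j - y k| ≤ 1 / T then c j * c k else 0 := by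
  set D := ∑ j ∈ S, ∑ k ∈ S, if |y j - y k| ≤ 1 / T then c j * c k else 0 with hD
  have hD0 : 0 ≤ D := by
    refine Finset.sum_nonneg (fun j hj => Finset.sum_nonneg (fun k hk => ?_))
    split_ifs
    · exact mul_nonneg (hc j hj) (hc k hk)
    · exact le_rfl
  -- a common bound for the distances
  obtain ⟨M, hM⟩ : ∃ M : ℕ, ∀ j ∈ S, ∀ k ∈ S, T * |y j - y k| < M := by
    obtain ⟨M, hM⟩ := exists_nat_gt (∑ j ∈ S, ∑ k ∈ S, T * |y j - y k|)
    refine ⟨M, fun j hj k hk => lt_of_le_of_lt ?_ hM⟩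
    calc T * |y j - y k| ≤ ∑ k ∈ S, T * |y j - y k| :=
          Finset.single_le_sum (f := fun k => T * |y j - y k|) (fun k _ => by positivity) hk
      _ ≤ _ := Finset.single_le_sum (f := fun j => ∑ k ∈ S, T * |y j - y k|)
          (fun j _ => Finset.sum_nonneg (fun k _ => by positivity)) hj
  have h1 : ∀ j ∈ S, ∀ k ∈ S, (c j * c k) * Real.exp (-(T * (y j - y k)) ^ 2 / 4) ≤
      ∑ m ∈ Finset.range M, Real.exp (-(m : ℝ) ^ 2 / 4) *
        (if |y j - y k| ≤ ((m + 1 : ℕ) : ℝ) / T then c j * c k else 0) := by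
    intro j hj k hk
    have hnn : 0 ≤ c j * c k := mul_nonneg (hc j hj) (hc k hk)
    set x := T * |y j - y k| with hx
    have hx0 : 0 ≤ x := by positivity
    have hxM := hM j hj k hk
    have hfl : ⌊x⌋₊ ∈ Finset.range M := by
      rw [Finset.mem_range]
      exact (Nat.floor_lt hx0).2 hxM
    refine le_trans ?_ (Finset.single_le_sum (f := fun m : ℕ => Real.exp (-(m : ℝ) ^ 2 / 4) *
        (if |y j - y k| ≤ ((m + 1 : ℕ) : ℝ) / T then c j * c k else 0)) (fun m _ => ?_) hfl)
    · rw [if_pos]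
      · rw [mul_comm]
        apply mul_le_mul_of_nonneg_right _ hnn
        apply Real.exp_le_exp.2
        have e1 : (T * (y j - y k)) ^ 2 = x ^ 2 := by
          rw [hx, mul_pow, mul_pow, sq_abs]
        have e2 := Nat.floor_le hx0
        have e3 : (0 : ℝ) ≤ (⌊x⌋₊ : ℝ) := Nat.cast_nonneg _
        rw [e1]
        nlinarith
      · rw [le_div_iff₀ hT]
        have := (Nat.lt_floor_add_one x).le
        push_cast
        linarith
    · split_ifs
      · positivity
      · simp
  calc ∑ j ∈ S, ∑ k ∈ S, (c j * c k) * Real.exp (-(T * (y j - y k)) ^ 2 / 4) ≤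
        ∑ j ∈ S, ∑ k ∈ S, ∑ m ∈ Finset.range M, Real.exp (-(m : ℝ) ^ 2 / 4) *
        (if |y j - y k| ≤ ((m + 1 : ℕ) : ℝ) / T then c j * c k else 0) :=
        Finset.sum_le_sum (fun j hj => Finset.sum_le_sum (fun k hk => h1 j hj k hk))
    _ = ∑ m ∈ Finset.range M, Real.exp (-(m : ℝ) ^ 2 / 4) * ∑ j ∈ S, ∑ k ∈ S,
        (if |y j - y k| ≤ ((m + 1 : ℕ) : ℝ) / T then c j * c k else 0) := by
        rw [Finset.sum_congr rfl (fun j _ => Finset.sum_comm), Finset.sum_comm]
        refine Finset.sum_congr rfl (fun m _ => ?_)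
        rw [Finset.mul_sum]
        refine Finset.sum_congr rfl (fun j _ => ?_)
        rw [Finset.mul_sum]
    _ ≤ ∑ m ∈ Finset.range M, Real.exp (-(m : ℝ) ^ 2 / 4) * ((2 * (m : ℝ) + 3) * D) := by
        refine Finset.sum_le_sum (fun m _ => ?_)
        apply mul_le_mul_of_nonneg_left _ (Real.exp_pos _).le
        have := a11'_strong ι S c y T (m + 1) hT hc
        refine this.trans (le_of_eq ?_)
        push_cast
        ring
    _ = (∑ m ∈ Finset.range M, Real.exp (-(m : ℝ) ^ 2 / 4) * (2 * (m : ℝ) + 3)) * D := by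
        rw [Finset.sum_mul]
        refine Finset.sum_congr rfl (fun m _ => ?_)
        ring
    _ ≤ _ := by
        apply mul_le_mul_of_nonneg_right _ hD0
        exact gw_summable.sum_le_tsum _ (fun m _ => by positivity)

theorem a11 : A11 := by
  refine ⟨Real.sqrt π * (∑' m : ℕ, Real.exp (-(m : ℝ) ^ 2 / 4) * (2 * (m : ℝ) + 3)), ?_, ?_⟩
  · have hpi := Real.pi_pos
    have : 0 < ∑' m : ℕ, Real.exp (-(m : ℝ) ^ 2 / 4) * (2 * (m : ℝ) + 3) :=
      gw_summable.tsum_pos (fun m => by positivity) 0 (by positivity)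
    positivity
  · intro ι S a y T hT
    refine ⟨mv_integrable S a y T hT, (mv_le S a y T hT).trans ?_⟩
    have h := gw_pairs S (fun j => ‖a j‖) y T hT (fun j _ => norm_nonneg _)
    calc Real.sqrt π * T * ∑ j ∈ S, ∑ k ∈ S, (‖a j‖ * ‖a k‖) *
          Real.exp (-(T * (y j - y k)) ^ 2 / 4) ≤ Real.sqrt π * T *
          ((∑' m : ℕ, Real.exp (-(m : ℝ) ^ 2 / 4) * (2 * (m : ℝ) + 3)) *
          ∑ j ∈ S, ∑ k ∈ S, if |y j - y k| ≤ 1 / T then ‖a j‖ * ‖a k‖ else 0) := by
          apply mul_le_mul_of_nonneg_left h (by positivity)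
      _ = _ := by ring

/-! ### separated points -/

theorem rect_integral (f : ℂ → ℝ) (hf : Continuous f) (σ₁ σ₂ t₁ t₂ : ℝ) (h1 : σ₁ ≤ σ₂)
    (h2 : t₁ ≤ t₂) :
    ∫ w in (Set.Icc σ₁ σ₂ ×ℂ Set.Icc t₁ t₂), f w =
      ∫ σ in σ₁..σ₂, ∫ t in t₁..t₂, f (σ + t * Complex.I) := by
  have e1 := (Complex.volume_preserving_equiv_real_prod.symm).setIntegral_preimage_emb
    Complex.measurableEquivRealProd.symm.measurableEmbedding f (Set.Icc σ₁ σ₂ ×ℂ Set.Icc t₁ t₂)
  rw [← e1]
  have e2 : Complex.measurableEquivRealProd.symm ⁻¹' (Set.Icc σ₁ σ₂ ×ℂ Set.Icc t₁ t₂) =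
      Set.Icc σ₁ σ₂ ×ˢ Set.Icc t₁ t₂ := by
    ext ⟨x, y⟩
    simp [Complex.measurableEquivRealProd, Complex.mem_reProdIm]
    tauto
  have e3 : ∀ p : ℝ × ℝ, f (Complex.measurableEquivRealProd.symm p) = f (p.1 + p.2 * Complex.I) := by
    intro p
    congr 1
    apply Complex.ext <;> simp [Complex.measurableEquivRealProd]
  rw [e2]
  simp only [e3]
  rw [Measure.volume_eq_prod, setIntegral_prod]
  · rw [intervalIntegral.integral_of_le h1, ← integral_Icc_eq_integral_Ioc]
    refine setIntegral_congr_fun measurableSet_Icc ?_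
    intro σ _
    simp only
    rw [intervalIntegral.integral_of_le h2, ← integral_Icc_eq_integral_Ioc]
  · rw [← Measure.volume_eq_prod]
    apply ContinuousOn.integrableOn_compact (isCompact_Icc.prod isCompact_Icc)
    apply Continuous.continuousOn
    fun_prop

theorem a12' : A12' := by
  intro F hF Z r σ₁ σ₂ t₁ t₂ hr h1 h2 hsep hZ
  have hc : Continuous (fun w => ‖F w‖ ^ 2) := by
    have := hF.continuous
    fun_prop
  rw [← rect_integral (fun w => ‖F w‖ ^ 2) hc σ₁ σ₂ t₁ t₂ h1 h2]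
  refine sum_le_area Z (fun z => z) F hF 2 r hr hsep _ ?_ ?_
  · intro z hz w hw
    rw [Metric.mem_closedBall, dist_eq_norm] at hw
    have hre := (Complex.abs_re_le_norm (w - z)).trans hw
    have him := (Complex.abs_im_le_norm (w - z)).trans hw
    rw [Complex.sub_re, abs_le] at hre
    rw [Complex.sub_im, abs_le] at him
    obtain ⟨a1, a2, a3, a4⟩ := hZ z hz
    rw [Complex.mem_reProdIm]
    exact ⟨⟨by linarith [hre.1], by linarith [hre.2]⟩, ⟨by linarith [him.1], by linarith [him.2]⟩⟩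
  · exact hc.continuousOn.integrableOn_compact (isCompact_Icc.reProdIm isCompact_Icc)

theorem a13 : A13 := by
  obtain ⟨C, hC, hA⟩ := a11
  refine ⟨Real.exp 4 * C, by positivity, ?_⟩
  intro ι S a y Z r σ₁ σ₂ T B hr hr1 hσ hT hsep hZ hB
  have hpi := Real.pi_pos
  set F : ℂ → ℂ := fun z => ∑ j ∈ S, a j * Complex.exp (y j * z) with hF
  have hFd : Differentiable ℂ F := by
    rw [hF]
    fun_prop
  have hT0 : 0 < T := by linarith
  have h1 := a12' F hFd Z r (σ₁ - r) (σ₂ + r) (-(T + r)) (T + r) hr (by linarith) (by linarith) hsep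
    (by
      intro z hz
      obtain ⟨b1, b2, b3⟩ := hZ z hz
      rw [abs_le] at b3
      exact ⟨by linarith, by linarith, by linarith [b3.1], by linarith [b3.2]⟩)
  refine h1.trans ?_
  have hline : ∀ σ ∈ Set.Icc (σ₁ - r) (σ₂ + r),
      ∫ t in (-(T + r))..(T + r), ‖F (σ + t * Complex.I)‖ ^ 2 ≤ Real.exp 4 * (C * T * B) := by
    intro σ hσ'
    have hexp : ∀ t : ℝ, F (σ + t * Complex.I) =
        ∑ j ∈ S, (a j * Complex.exp ((y j * σ : ℝ))) * Complex.exp (Complex.I * (y j * t : ℝ)) := by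
      intro t
      rw [hF]
      refine Finset.sum_congr rfl (fun j _ => ?_)
      rw [mul_assoc, ← Complex.exp_add]
      congr 2
      push_cast
      ring
    obtain ⟨hint, hval⟩ := hA ι S (fun j => a j * Complex.exp ((y j * σ : ℝ))) y T hT0
    have hD : (∑ j ∈ S, ∑ k ∈ S, if |y j - y k| ≤ 1 / T then
        ‖a j * Complex.exp ((y j * σ : ℝ))‖ * ‖a k * Complex.exp ((y k * σ : ℝ))‖ else 0) ≤ B := by
      refine le_trans (le_of_eq ?_) (hB σ hσ'.1 hσ'.2)
      refine Finset.sum_congr rfl (fun j _ => Finset.sum_congr rfl (fun k _ => ?_))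
      split_ifs
      · rw [norm_mul, norm_mul, ← Complex.ofReal_exp, ← Complex.ofReal_exp, Complex.norm_real,
          Complex.norm_real, Real.norm_eq_abs, Real.norm_eq_abs, abs_of_pos (Real.exp_pos _),
          abs_of_pos (Real.exp_pos _)]
        have : Real.exp (σ * (y j + y k)) = Real.exp (y j * σ) * Real.exp (y k * σ) := by
          rw [← Real.exp_add]; congr 1; ring
        rw [this]
        ring
      · rfl
    simp only [← hexp] at hint hval
    have hle : ∫ t in (-(T + r))..(T + r), ‖F (σ + t * Complex.I)‖ ^ 2 ≤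
        ∫ t : ℝ, Real.exp 4 * (Real.exp (-(t / T) ^ 2) * ‖F (σ + t * Complex.I)‖ ^ 2) := by
      rw [intervalIntegral.integral_of_le (by linarith)]
      have hc : Continuous (fun t : ℝ => ‖F (σ + t * Complex.I)‖ ^ 2) := by
        have := hFd.continuous
        fun_prop
      calc ∫ t in Set.Ioc (-(T + r)) (T + r), ‖F (σ + t * Complex.I)‖ ^ 2 ≤
            ∫ t in Set.Ioc (-(T + r)) (T + r),
              Real.exp 4 * (Real.exp (-(t / T) ^ 2) * ‖F (σ + t * Complex.I)‖ ^ 2) := by
            apply setIntegral_mono_on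
            · exact (hc.integrableOn_Icc (a := -(T + r)) (b := T + r)).mono_set Set.Ioc_subset_Icc_self
            · exact (hint.const_mul _).integrableOn
            · exact measurableSet_Ioc
            · intro t ht
              have ht2 : |t| ≤ 2 * T := by
                rw [abs_le]
                constructor <;> linarith [ht.1, ht.2]
              have h5 : (t / T) ^ 2 ≤ 4 := by
                have : |t / T| ≤ 2 := by
                  rw [abs_div, abs_of_pos hT0, div_le_iff₀ hT0]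
                  exact ht2
                have h6 := sq_le_sq' (by linarith [abs_nonneg (t / T)]) this
                rw [sq_abs] at h6
                linarith
              have h7 : 1 ≤ Real.exp 4 * Real.exp (-(t / T) ^ 2) := by
                rw [← Real.exp_add]
                exact Real.one_le_exp (by linarith)
              have h8 : 0 ≤ ‖F (σ + t * Complex.I)‖ ^ 2 := by positivity
              calc ‖F (σ + t * Complex.I)‖ ^ 2 = 1 * ‖F (σ + t * Complex.I)‖ ^ 2 := by ring
                _ ≤ (Real.exp 4 * Real.exp (-(t / T) ^ 2)) * ‖F (σ + t * Complex.I)‖ ^ 2 :=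
                    mul_le_mul_of_nonneg_right h7 h8
                _ = _ := by ring
        _ ≤ _ := setIntegral_le_integral (hint.const_mul _)
              (Filter.Eventually.of_forall (fun t => by positivity))
    refine hle.trans ?_
    rw [integral_const_mul]
    apply mul_le_mul_of_nonneg_left _ (Real.exp_pos _).le
    refine hval.trans ?_
    exact mul_le_mul_of_nonneg_left hD (by positivity)
  have hB0 : 0 ≤ Real.exp 4 * (C * T * B) := by
    have := hline σ₁ ⟨by linarith, by linarith⟩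
    refine le_trans ?_ this
    apply intervalIntegral.integral_nonneg (by linarith)
    intro t _
    positivity
  have h2 : ∫ σ in (σ₁ - r)..(σ₂ + r), ∫ t in (-(T + r))..(T + r), ‖F (σ + t * Complex.I)‖ ^ 2 ≤
      (σ₂ - σ₁ + 2 * r) * (Real.exp 4 * (C * T * B)) := by
    have h3 : ∫ σ in (σ₁ - r)..(σ₂ + r), ∫ t in (-(T + r))..(T + r), ‖F (σ + t * Complex.I)‖ ^ 2 ≤
        ∫ σ in (σ₁ - r)..(σ₂ + r), Real.exp 4 * (C * T * B) := by
      apply intervalIntegral.integral_mono_on (by linarith)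
      · apply Continuous.intervalIntegrable
        have hc : Continuous (Function.uncurry (fun (σ t : ℝ) => ‖F (σ + t * Complex.I)‖ ^ 2)) := by
          have := hFd.continuous
          fun_prop
        exact intervalIntegral.continuous_parametric_intervalIntegral_of_continuous' hc _ _
      · exact intervalIntegrable_const
      · exact fun σ hσ' => hline σ hσ'
    refine h3.trans (le_of_eq ?_)
    rw [intervalIntegral.integral_const, smul_eq_mul]
    ring
  have h4 : 1 / (π * r ^ 2) ≤ 1 / r ^ 2 := by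
    apply one_div_le_one_div_of_le (by positivity)
    have : 1 ≤ π := by linarith [Real.pi_gt_three]
    nlinarith [sq_nonneg r]
  calc 1 / (π * r ^ 2) * ∫ σ in (σ₁ - r)..(σ₂ + r), ∫ t in (-(T + r))..(T + r),
        ‖F (σ + t * Complex.I)‖ ^ 2 ≤
        1 / (π * r ^ 2) * ((σ₂ - σ₁ + 2 * r) * (Real.exp 4 * (C * T * B))) :=
        mul_le_mul_of_nonneg_left h2 (by positivity)
    _ ≤ 1 / r ^ 2 * ((σ₂ - σ₁ + 2 * r) * (Real.exp 4 * (C * T * B))) := by
        apply mul_le_mul_of_nonneg_right h4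
        apply mul_nonneg (by linarith) hB0
    _ = _ := by ring

end Pool.Agent.Helper6.KSZ
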